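import Pool.Agent.MWI.StmtsT

/-!
# Row FST: a bad main block or letters `y` outside
-/

namespace Pool.Agent.MWI.H25

open Pool.Agent.Helper14_MV Pool.Agent.Helper2_MV Pool.Agent.MWF Pool.Agent.MWI

theorem it_zero (k : ℕ) : (List.replicate k 0).filter it = [] := by
  rw [List.filter_eq_nil_iff]
  intro c hc
  rw [List.eq_of_mem_replicate hc]
  decide

theorem it_z (i : ℕ) : it (3 * i + 2) = false := by
  unfold it
  rw [decide_eq_false_iff_not]
  omega

theorem it_t (i : ℕ) : it (3 * i + 1) = true := by
  unfold it
  rw [decide_eq_true_iff]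
  omega

theorem pA_it (a b : ℕ → ℕ) (P : List ℕ) : (pA a b P).filter it = ts P := by
  induction P with
  | nil => rfl
  | cons i P ih =>
    have e : pA a b (i :: P) = (List.replicate (a i) 0 ++ (3 * i + 2) ::
      (List.replicate (b i) 0 ++ [3 * i + 1])) ++ pA a b P := by
      unfold pA
      rw [List.flatMap_cons]
    rw [e, List.filter_append, List.filter_append, List.filter_cons, List.filter_append, ih,
      it_zero, it_zero, it_z, List.filter_cons, it_t]
    rfl

theorem pC_it (a b : ℕ → ℕ) (Q : List ℕ) : (pC a b Q).filter it = ts Q := by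
  induction Q with
  | nil => rfl
  | cons i Q ih =>
    have e : pC a b (i :: Q) = ((3 * i + 1) :: (List.replicate (a i) 0 ++ (3 * i + 2) ::
      List.replicate (b i) 0)) ++ pC a b Q := by
      unfold pC
      rw [List.flatMap_cons]
    rw [e, List.filter_append, List.filter_cons, List.filter_append, List.filter_cons, ih,
      it_zero, it_zero, it_z, it_t]
    rfl

theorem pA_last (a b : ℕ → ℕ) (P : List ℕ) (l : List ℕ) (c : ℕ) (h : pA a b P = l ++ [c]) :
    c % 3 = 1 := by
  rcases List.eq_nil_or_concat P with hP | ⟨P', i, hP⟩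
  · subst hP
    have h1 : ([] : List ℕ) = l ++ [c] := h
    have h2 := congrArg List.length h1
    rw [List.length_append] at h2
    simp at h2
  · rw [hP, List.concat_eq_append] at h
    have e : pA a b (P' ++ [i]) = (pA a b P' ++ (List.replicate (a i) 0 ++ (3 * i + 2) ::
        List.replicate (b i) 0)) ++ [3 * i + 1] := by
      unfold pA
      rw [List.flatMap_append]
      simp
    rw [e] at h
    have h1 := congrArg List.getLast? h
    rw [List.getLast?_append, List.getLast?_append] at h1
    simp at h1
    omega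

theorem pC_head (a b : ℕ → ℕ) (Q : List ℕ) (l : List ℕ) (c : ℕ) (h : pC a b Q = c :: l) :
    c % 3 = 1 := by
  cases Q with
  | nil => exact absurd h (by simp [pC])
  | cons i Q =>
    unfold pC at h
    rw [List.flatMap_cons, List.cons_append] at h
    have h1 := (List.cons.inj h).1
    omega

theorem pA_count (a b : ℕ → ℕ) (P : List ℕ) (h : ∀ i ∈ P, a i + b i = 0) :
    (pA a b P).count 0 = 0 := by
  rw [List.count_eq_zero]
  intro hm
  unfold pA at hm
  obtain ⟨i, hi, h0⟩ := List.mem_flatMap.1 hm
  have h1 := h i hi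
  have ha : a i = 0 := by omega
  have hb : b i = 0 := by omega
  rw [ha, hb] at h0
  simp at h0

theorem pC_count (a b : ℕ → ℕ) (Q : List ℕ) (h : ∀ i ∈ Q, a i + b i = 0) :
    (pC a b Q).count 0 = 0 := by
  rw [List.count_eq_zero]
  intro hm
  unfold pC at hm
  obtain ⟨i, hi, h0⟩ := List.mem_flatMap.1 hm
  have h1 := h i hi
  have ha : a i = 0 := by omega
  have hb : b i = 0 := by omega
  rw [ha, hb] at h0
  simp at h0

theorem mem_zz {h : List ℕ} {c : ℕ} : c ∈ zz h ↔ ∃ i ∈ h, 3 * i + 2 = c := by
  unfold zz
  rw [List.mem_map]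

theorem zz_ny (h : List ℕ) : (zz h).filter ny = zz h := by
  rw [List.filter_eq_self]
  intro c hc
  obtain ⟨i, -, hi⟩ := mem_zz.1 hc
  unfold ny
  rw [decide_eq_true_iff]
  omega

theorem zz_inj {h h' : List ℕ} (e : zz h = zz h') : h = h' := by
  unfold zz at e
  exact List.map_injective_iff.2 (fun x y hxy => by
    have : 3 * x + 2 = 3 * y + 2 := hxy
    omega) e

theorem zz_count (h : List ℕ) : (zz h).count 0 = 0 := by
  rw [List.count_eq_zero]
  intro hm
  obtain ⟨i, -, hi⟩ := mem_zz.1 hm
  omega

theorem fst (hN2C : N2cStmt) (hWDC : WdcStmt) : FstStmt := by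
  intro β hM hI P Q m hm hP
  obtain ⟨w, hw, hbad⟩ := hN2C β hM hI P Q m hm hP
  obtain ⟨a, b, M, h, hh, hwe, hMf⟩ := hWDC β hI P Q m hP w hw
  by_cases hform : ∃ h', M = 0 :: (zz h' ++ [0])
  · right
    obtain ⟨h', hM'⟩ := hform
    have hzz : zz h' = zz h := by
      rw [← hMf, hM', List.filter_cons, List.filter_append, zz_ny]
      simp [ny]
    have hhh : h' = h := zz_inj hzz
    subst hhh
    refine ⟨a, b, h', hh, ?_, ?_⟩
    · rw [← hM', ← hwe]
      exact hw
    · by_contra hc
      push Not at hc
      apply hbad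
      have hwe2 : w = pA a b P ++ 0 :: (zz h' ++ 0 :: pC a b Q) := by
        rw [hwe, hM']
        unfold bb
        simp
      constructor
      · rw [hwe2, List.count_append, List.count_cons_self, List.count_append,
          List.count_cons_self, pA_count a b P (fun i hi => hc i (List.mem_append_left _ hi)),
          pC_count a b Q (fun i hi => hc i (List.mem_append_right _ hi)), zz_count]
      · intro e he
        refine ⟨pA a b P, zz h', pC a b Q, hwe2, mem_zz.2 ⟨e, ?_, rfl⟩⟩
        exact hh.mem_iff.2 (List.mem_range.2 he)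
  · left
    push Not at hform
    refine ⟨w, hw, pA a b P, M, pC a b Q, hwe, pA_it a b P, pC_it a b Q, ?_, ?_, ?_, hform⟩
    · intro c hc
      by_cases h0 : c = 0
      · rw [h0]
        decide
      · have h1 : c ∈ M.filter ny := by
          rw [List.mem_filter]
          exact ⟨hc, decide_eq_true h0⟩
        rw [hMf] at h1
        obtain ⟨i, -, hi⟩ := mem_zz.1 h1
        omega
    · intro l c h1
      exact pA_last a b P l c h1
    · intro c l h1
      exact pC_head a b Q l c h1

end Pool.Agent.MWI.H25
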